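import Pool.Agent.Helper99.EXC.GoalsD

/-! # EXC, packet EXI -/

set_option autoImplicit false

open Finset

namespace Pool.Agent.Helper19.EXC

open Pool.Agent.Helper99.ERW Pool.Agent.Helper99.EXC

/-- the square of the euclidean norm -/
noncomputable def sq (x : Site 2) : ℝ := (x 0 : ℝ) ^ 2 + (x 1 : ℝ) ^ 2

lemma sd_sq (l : Fin 2) (x : Site 2) : secondDiff sq l x = 2 := by
  unfold secondDiff sq vec
  fin_cases l <;> simp <;> ring

lemma stp_sq (p : Site 2 → ℕ → ℝ) (s : St) : stp p (fun s => sq s.1) s = sq s.1 + 1 := by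
  rw [stp_pos p (1 / 2) sq s]
  unfold La Df
  rw [sd_sq, sd_sq]
  ring

theorem EXI : EXI_stmt := by
  intro p hp0 hp1 R N s0
  by_cases hs0 : s0.1 ∈ box 2 R
  · have hinn : inn (box 2 R) (fun _ => (1 : ℝ)) = one (box 2 R) := by
      funext s; rfl
    have h1 := tele p (box 2 R) N (F := fun s => sq s.1) (g := fun _ => 1) (fun s _ => stp_sq p s) s0
    have h2 : Ex p (box 2 R) N (fun s => sq s.1) s0 ≤ 2 * ((R : ℝ) + 1) ^ 2 := by
      have h3 := Ex_mono_inv hp0 hp1 (box 2 R) N (f := fun s => sq s.1) (g := fun _ => 2 * ((R : ℝ) + 1) ^ 2)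
        (I := fun s => s.1 ∈ box 2 (R + 1))
        (fun s _ hs e => by
          rw [nxt_fst, mem_box]
          rw [mem_box] at hs
          intro l
          have e1 := abs_add_le (s.1 l) (vec e l)
          have e2 := abs_vec_le e l
          have e3 := hs l
          push_cast
          have e4 : (s.1 + vec e) l = s.1 l + vec e l := rfl
          rw [e4]
          linarith)
        (fun s hs => by
          rw [mem_box] at hs
          have e0 := hs 0
          have e1 := hs 1
          have e0' : |(s.1 0 : ℝ)| ≤ (R : ℝ) + 1 := by exact_mod_cast e0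
          have e1' : |(s.1 1 : ℝ)| ≤ (R : ℝ) + 1 := by exact_mod_cast e1
          have f0 := sq_le_sq' (abs_le.mp e0').1 (abs_le.mp e0').2
          have f1 := sq_le_sq' (abs_le.mp e1').1 (abs_le.mp e1').2
          show sq s.1 ≤ _
          unfold sq
          linarith) s0
        (by
          rw [mem_box] at hs0 ⊢
          intro l
          have := hs0 l
          push_cast
          linarith)
      rwa [Ex_const] at h3
    have h4 : 0 ≤ sq s0.1 := by unfold sq; positivity
    have hanti : ∀ m, Ex p (box 2 R) (m + 1) (one (box 2 R)) s0 ≤ Ex p (box 2 R) m (one (box 2 R)) s0 := by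
      intro m
      rw [Ex_succ']
      refine Ex_mono hp0 hp1 (box 2 R) m (fun s => ?_) s0
      by_cases hs : s.1 ∈ box 2 R
      · rw [KK_in p _ hs]
        have e1 : one (box 2 R) s = 1 := by unfold one; rw [if_pos hs]
        rw [e1]
        have e2 := stp_mono hp0 hp1 (f := one (box 2 R)) (g := fun _ => 1) (s := s) (fun e => by
          unfold one; split_ifs <;> norm_num)
        rwa [stp_const] at e2
      · rw [KK_out p _ hs]
    have hA : Antitone (fun m => Ex p (box 2 R) m (one (box 2 R)) s0) := antitone_nat_of_succ_le hanti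
    have h5 : (N : ℝ) * Ex p (box 2 R) N (one (box 2 R)) s0 ≤ Rw p (box 2 R) N (fun _ => 1) s0 := by
      unfold Rw
      rw [hinn]
      have h6 := Finset.card_nsmul_le_sum (range N) (fun m => Ex p (box 2 R) m (one (box 2 R)) s0)
        (Ex p (box 2 R) N (one (box 2 R)) s0) (fun m hm => hA (le_of_lt (Finset.mem_range.mp hm)))
      rwa [Finset.card_range, nsmul_eq_mul] at h6
    linarith
  · rw [Ex_out p _ N _ hs0]
    have e1 : one (box 2 R) s0 = 0 := by unfold one; rw [if_neg hs0]
    rw [e1, mul_zero]
    positivity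

end Pool.Agent.Helper19.EXC
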